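import Mathlib
import Pool.Agent.H153R4.Pl

/-!
# A bounded Fourier transform between variable Lebesgue spaces with a bad defect exponent
-/

namespace Pool.Agent.Results.MP_598c7e_an.SidonUnion

open MeasureTheory Filter Topology Set FourierTransform Convolution
open scoped ENNReal NNReal

noncomputable section

/-- An exponent: a measurable function `p : ℝ → [1, ∞]`. -/
structure IsExponent (p : ℝ → ℝ≥0∞) : Prop where
  measurable : Measurable p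
  one_le : ∀ x, 1 ≤ p x

/-- The modular `ρ_p(f) = ∫_{p < ∞} |f(x)|^{p(x)} dx + ‖f‖_{L^∞(p = ∞)}`. -/
def modular (p : ℝ → ℝ≥0∞) (f : ℝ → ℂ) : ℝ≥0∞ :=
  (∫⁻ x in {x | p x ≠ ∞}, ‖f x‖ₑ ^ (p x).toReal) + eLpNorm f ∞ (volume.restrict {x | p x = ∞})

/-- `f ∈ L^{p(·)}(ℝ)`: `f` is measurable and `ρ_p(f / l) < ∞` for some `l > 0`. -/
def MemVar (p : ℝ → ℝ≥0∞) (f : ℝ → ℂ) : Prop :=
  AEStronglyMeasurable f volume ∧ ∃ l : ℝ, 0 < l ∧ modular p (fun x => f x / l) < ∞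

/-- The norm `‖f‖_{p(·)} = inf {l > 0 : ρ_p(f / l) ≤ 1}`, with value `∞` if there is no
such `l`. -/
def vnorm (p : ℝ → ℝ≥0∞) (f : ℝ → ℂ) : ℝ≥0∞ :=
  ⨅ (l : ℝ) (_ : 0 < l) (_ : modular p (fun x => f x / l) ≤ 1), ENNReal.ofReal l

/-- The Fourier transform `𝓕 f (ξ) = ∫ f(x) exp (-2 π i x ξ) dx` is bounded from `L^{p(·)}` to
`L^{q(·)}`. -/
def FourierBounded (p q : ℝ → ℝ≥0∞) : Prop :=
  ∃ C : ℝ≥0, ∀ f : ℝ → ℂ, Integrable f → MemVar p f → vnorm q (𝓕 f) ≤ C * vnorm p f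

/-- `p₋`, the essential infimum of `p`. -/
def pminus (p : ℝ → ℝ≥0∞) : ℝ≥0∞ := essInf p volume

/-- The conjugate exponent `a'`, `1/a + 1/a' = 1`. -/
def conjExp (a : ℝ≥0∞) : ℝ≥0∞ := (1 - a⁻¹)⁻¹

/-- The defect exponent `r`, `1/r(x) = 1/p₋ - 1/p(x)`. -/
def defectR (p : ℝ → ℝ≥0∞) (x : ℝ) : ℝ≥0∞ := ((pminus p)⁻¹ - (p x)⁻¹)⁻¹

/-- The defect exponent `s`, `1/s(x) = 1/q(x) - 1/(p₋)'`. -/
def defectS (p q : ℝ → ℝ≥0∞) (x : ℝ) : ℝ≥0∞ := ((q x)⁻¹ - (conjExp (pminus p))⁻¹)⁻¹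

lemma cs (μ : Measure ℝ) {f g : ℝ → ℝ≥0∞} (hf : AEMeasurable f μ) (hg : AEMeasurable g μ) :
    (∫⁻ a, f a * g a ∂μ) ^ 2 ≤ (∫⁻ a, f a ^ 2 ∂μ) * ∫⁻ a, g a ^ 2 ∂μ := by
  have h := ENNReal.lintegral_mul_le_Lp_mul_Lq μ Real.HolderConjugate.two_two hf hg
  simp only [Pi.mul_apply, ENNReal.rpow_ofNat] at h
  calc (∫⁻ a, f a * g a ∂μ) ^ 2
      ≤ ((∫⁻ a, f a ^ 2 ∂μ) ^ (1 / 2 : ℝ) * (∫⁻ a, g a ^ 2 ∂μ) ^ (1 / 2 : ℝ)) ^ 2 := by gcongr
    _ = _ := by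
      rw [mul_pow, ← ENNReal.rpow_natCast, ← ENNReal.rpow_natCast, ← ENNReal.rpow_mul,
        ← ENNReal.rpow_mul]
      norm_num

lemma tonelli (k : ℝ → ℝ≥0∞) (hk : Measurable k) :
    ∫⁻ x, ∫⁻ y, k y * k (x - y) = (∫⁻ y, k y) * ∫⁻ y, k y := by
  rw [lintegral_lintegral_swap]
  · have : ∀ y, ∫⁻ x, k y * k (x - y) = k y * ∫⁻ x, k x := by
      intro y
      rw [lintegral_const_mul _ (by fun_prop), lintegral_sub_right_eq_self k y]
    simp_rw [this]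
    rw [lintegral_mul_const _ hk]
  · exact Measurable.aemeasurable (by fun_prop)

lemma youngA (h : ℝ → ℝ≥0∞) (hm : Measurable h) :
    ∫⁻ x, (∫⁻ y, h y * h (x - y)) ^ 2 ≤ (∫⁻ y, h y ^ (4 / 3 : ℝ)) ^ 3 := by
  set k : ℝ → ℝ≥0∞ := fun y => h y ^ (4 / 3 : ℝ) with hk
  have hkm : Measurable k := by fun_prop
  have h23 : Measurable fun y => h y ^ (2 / 3 : ℝ) := by fun_prop
  have h13 : Measurable fun y => h y ^ (1 / 3 : ℝ) := by fun_prop
  have e1 : ∀ t : ℝ≥0∞, (t ^ (2 / 3 : ℝ)) ^ 2 = t ^ (4 / 3 : ℝ) := by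
    intro t; rw [← ENNReal.rpow_natCast, ← ENNReal.rpow_mul]; norm_num
  have e2 : ∀ t : ℝ≥0∞, (t ^ (1 / 3 : ℝ)) ^ 2 = t ^ (2 / 3 : ℝ) := by
    intro t; rw [← ENNReal.rpow_natCast, ← ENNReal.rpow_mul]; norm_num
  have e3 : ∀ t : ℝ≥0∞, t ^ (2 / 3 : ℝ) * t ^ (1 / 3 : ℝ) = t := by
    intro t
    rw [← ENNReal.rpow_add_of_nonneg _ _ (by norm_num) (by norm_num)]; norm_num
  have step : ∀ x, (∫⁻ y, h y * h (x - y)) ^ 2 ≤ (∫⁻ y, k y * k (x - y)) * ∫⁻ y, k y := by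
    intro x
    have hs : ∫⁻ y, k (x - y) = ∫⁻ y, k y := lintegral_sub_left_eq_self k x
    have a1 : (∫⁻ y, h y * h (x - y)) ^ 2 ≤
        (∫⁻ y, (h y ^ (2 / 3 : ℝ) * h (x - y) ^ (2 / 3 : ℝ)) ^ 2) *
        ∫⁻ y, (h y ^ (1 / 3 : ℝ) * h (x - y) ^ (1 / 3 : ℝ)) ^ 2 := by
      refine le_trans (le_of_eq ?_) (cs volume (Measurable.aemeasurable (by fun_prop))
        (Measurable.aemeasurable (by fun_prop)))
      congr 2
      funext y
      rw [mul_mul_mul_comm, e3, e3]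
    refine a1.trans ?_
    have a2 : ∫⁻ y, (h y ^ (2 / 3 : ℝ) * h (x - y) ^ (2 / 3 : ℝ)) ^ 2 = ∫⁻ y, k y * k (x - y) := by
      congr 1; funext y; rw [mul_pow, e1, e1]
    have a3 : ∫⁻ y, (h y ^ (1 / 3 : ℝ) * h (x - y) ^ (1 / 3 : ℝ)) ^ 2 =
        ∫⁻ y, h y ^ (2 / 3 : ℝ) * h (x - y) ^ (2 / 3 : ℝ) := by
      congr 1; funext y; rw [mul_pow, e2, e2]
    rw [a2, a3]
    refine mul_le_mul' le_rfl ?_
    have a4 := cs volume (f := fun y => h y ^ (2 / 3 : ℝ)) (g := fun y => h (x - y) ^ (2 / 3 : ℝ))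
      (Measurable.aemeasurable (by fun_prop)) (Measurable.aemeasurable (by fun_prop))
    simp only [e1] at a4
    change _ ≤ (∫⁻ y, k y) * (∫⁻ y, k (x - y)) at a4
    rw [hs, ← sq] at a4
    exact (ENNReal.pow_le_pow_left_iff (n := 2) (by norm_num)).1 a4
  calc ∫⁻ x, (∫⁻ y, h y * h (x - y)) ^ 2
      ≤ ∫⁻ x, (∫⁻ y, k y * k (x - y)) * ∫⁻ y, k y := lintegral_mono step
    _ = (∫⁻ y, k y) ^ 3 := by
      rw [lintegral_mul_const, tonelli k hkm]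
      · ring
      · exact Measurable.lintegral_prod_right' (f := fun z : ℝ × ℝ => k z.2 * k (z.1 - z.2))
          (by fun_prop)

lemma youngB (E : Set ℝ) (hE : MeasurableSet E) (hS : ∀ x, volume (E ∩ {y | x - y ∈ E}) ≤ 2)
    (h : ℝ → ℝ≥0∞) (hm : Measurable h) (h0 : ∀ x, x ∉ E → h x = 0) :
    ∫⁻ x, (∫⁻ y, h y * h (x - y)) ^ 2 ≤ 2 * (∫⁻ y, h y ^ 2) ^ 2 := by
  have step : ∀ x, (∫⁻ y, h y * h (x - y)) ^ 2 ≤ 2 * ∫⁻ y, h y ^ 2 * h (x - y) ^ 2 := by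
    intro x
    have hA : MeasurableSet (E ∩ {y | x - y ∈ E}) :=
      hE.inter ((measurable_const.sub measurable_id) hE)
    have a1 := cs volume (f := (E ∩ {y | x - y ∈ E}).indicator 1) (g := fun y => h y * h (x - y))
      (measurable_one.indicator hA).aemeasurable (Measurable.aemeasurable (by fun_prop))
    have a2 : ∫⁻ y, (E ∩ {y | x - y ∈ E}).indicator 1 y * (h y * h (x - y)) =
        ∫⁻ y, h y * h (x - y) := by
      congr 1
      funext y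
      by_cases hy : y ∈ E ∩ {y | x - y ∈ E}
      · rw [indicator_of_mem hy]; simp
      · rw [indicator_of_notMem hy, zero_mul]
        rw [mem_inter_iff, not_and_or] at hy
        rcases hy with hy | hy
        · rw [h0 _ hy, zero_mul]
        · rw [h0 _ hy, mul_zero]
    have a3 : ∫⁻ y, ((E ∩ {y | x - y ∈ E}).indicator 1 y : ℝ≥0∞) ^ 2 =
        volume (E ∩ {y | x - y ∈ E}) := by
      rw [← lintegral_indicator_one hA]
      congr 1
      funext y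
      by_cases hy : y ∈ E ∩ {y | x - y ∈ E}
      · rw [indicator_of_mem hy]; simp
      · rw [indicator_of_notMem hy]; simp
    rw [a2, a3] at a1
    refine a1.trans ?_
    simp_rw [mul_pow]
    gcongr
    exact hS x
  calc ∫⁻ x, (∫⁻ y, h y * h (x - y)) ^ 2
      ≤ ∫⁻ x, 2 * ∫⁻ y, h y ^ 2 * h (x - y) ^ 2 := lintegral_mono step
    _ = 2 * (∫⁻ y, h y ^ 2) ^ 2 := by
      rw [lintegral_const_mul, tonelli (fun y => h y ^ 2) (by fun_prop), sq]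
      exact Measurable.lintegral_prod_right' (f := fun z : ℝ × ℝ => h z.2 ^ 2 * h (z.1 - z.2) ^ 2)
          (by fun_prop)

lemma F4 (g : ℝ → ℂ) (hg : Integrable g) {M : ℝ≥0∞} (hM : M ≠ ∞)
    (hb : ∫⁻ x, (∫⁻ y, ‖g y‖ₑ * ‖g (x - y)‖ₑ) ^ 2 ≤ M) : ∫⁻ ξ, ‖𝓕 g ξ‖ₑ ^ 4 ≤ M := by
  set G : ℝ → ℂ := g ⋆[ContinuousLinearMap.mul ℂ ℂ, volume] g with hG
  have hGi : Integrable G := hg.integrable_convolution _ hg
  have hGx : ∀ x, ‖G x‖ₑ ≤ ∫⁻ y, ‖g y‖ₑ * ‖g (x - y)‖ₑ := by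
    intro x
    rw [hG, convolution_def]
    refine (enorm_integral_le_lintegral_enorm _).trans_eq ?_
    congr 1
    funext y
    simp [enorm_mul]
  have hG2 : ∫⁻ x, ‖G x‖ₑ ^ 2 ≤ M :=
    (lintegral_mono fun x => pow_le_pow_left' (hGx x) 2).trans hb
  have hGm : MemLp G 2 := by
    refine ⟨hGi.1, ?_⟩
    rw [eLpNorm_lt_top_iff_lintegral_rpow_enorm_lt_top (by norm_num) (by norm_num)]
    simp only [ENNReal.toReal_ofNat, ENNReal.rpow_ofNat]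
    exact lt_of_le_of_lt hG2 hM.lt_top
  have hP := Pool.Agent.H153R4.plancherel G hGi hGm
  have e : ∀ ξ, ‖𝓕 G ξ‖ₑ ^ 2 = ‖𝓕 g ξ‖ₑ ^ 4 := by
    intro ξ
    rw [hG, Real.fourier_mul_convolution_eq hg hg, enorm_mul]
    ring
  simp_rw [e] at hP
  rw [hP]
  exact hG2

/-- the set `E = ∪ⱼ [4^{j+1}, 4^{j+1} + 1)` -/
def EE : Set ℝ := ⋃ j : ℕ, Ico ((4 : ℝ) ^ (j + 1)) ((4 : ℝ) ^ (j + 1) + 1)

lemma EE_meas : MeasurableSet EE := MeasurableSet.iUnion fun _ => measurableSet_Ico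

lemma mem_EE {x : ℝ} : x ∈ EE ↔ ∃ j : ℕ, (4 : ℝ) ^ (j + 1) ≤ x ∧ x < (4 : ℝ) ^ (j + 1) + 1 := by
  simp [EE]

/-- the key property of pairs -/
lemma pair_prop {x y : ℝ} (hy : y ∈ EE) (hxy : x - y ∈ EE) : ∃ m : ℕ,
    ((4 : ℝ) ^ (m + 1) ≤ x ∧ x < 2 * (4 : ℝ) ^ (m + 1) + 2) ∧
    (y ∈ Ico ((4 : ℝ) ^ (m + 1)) ((4 : ℝ) ^ (m + 1) + 1) ∨
      x - y ∈ Ico ((4 : ℝ) ^ (m + 1)) ((4 : ℝ) ^ (m + 1) + 1)) := by
  obtain ⟨j, hj⟩ := mem_EE.1 hy
  obtain ⟨k, hk⟩ := mem_EE.1 hxy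
  have hj0 : (0 : ℝ) < 4 ^ (j + 1) := by positivity
  have hk0 : (0 : ℝ) < 4 ^ (k + 1) := by positivity
  rcases le_total k j with h | h
  · have : (4 : ℝ) ^ (k + 1) ≤ 4 ^ (j + 1) := pow_le_pow_right₀ (by norm_num) (by omega)
    exact ⟨j, ⟨by linarith, by linarith⟩, Or.inl hj⟩
  · have : (4 : ℝ) ^ (j + 1) ≤ 4 ^ (k + 1) := pow_le_pow_right₀ (by norm_num) (by omega)
    exact ⟨k, ⟨by linarith, by linarith⟩, Or.inr hk⟩

lemma uniq_m {x : ℝ} {m m' : ℕ} (h : (4 : ℝ) ^ (m + 1) ≤ x ∧ x < 2 * (4 : ℝ) ^ (m + 1) + 2)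
    (h' : (4 : ℝ) ^ (m' + 1) ≤ x ∧ x < 2 * (4 : ℝ) ^ (m' + 1) + 2) : m = m' := by
  have key : ∀ m m' : ℕ, ((4 : ℝ) ^ (m + 1) ≤ x ∧ x < 2 * (4 : ℝ) ^ (m + 1) + 2) →
      ((4 : ℝ) ^ (m' + 1) ≤ x ∧ x < 2 * (4 : ℝ) ^ (m' + 1) + 2) → m < m' → False := by
    intro m m' h h' hlt
    have h1 : (4 : ℝ) ^ (m + 2) ≤ 4 ^ (m' + 1) := pow_le_pow_right₀ (by norm_num) (by omega)
    have h2 : (4 : ℝ) ^ (m + 2) = 4 * 4 ^ (m + 1) := by ring
    have h3 : (4 : ℝ) ≤ 4 ^ (m + 1) := by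
      calc (4 : ℝ) = 4 ^ 1 := by norm_num
        _ ≤ 4 ^ (m + 1) := pow_le_pow_right₀ (by norm_num) (by omega)
    linarith [h.2, h'.1]
  rcases lt_trichotomy m m' with hl | he | hg
  · exact (key m m' h h' hl).elim
  · exact he
  · exact (key m' m h' h hg).elim

lemma EE_sidon (x : ℝ) : volume (EE ∩ {y | x - y ∈ EE}) ≤ 2 := by
  rcases Set.eq_empty_or_nonempty (EE ∩ {y | x - y ∈ EE}) with h | ⟨y0, hy0, hxy0⟩
  · rw [h]; simp
  · obtain ⟨m, hm, -⟩ := pair_prop hy0 hxy0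
    have hsub : EE ∩ {y | x - y ∈ EE} ⊆ Ico ((4 : ℝ) ^ (m + 1)) ((4 : ℝ) ^ (m + 1) + 1) ∪
        Ioc (x - ((4 : ℝ) ^ (m + 1) + 1)) (x - (4 : ℝ) ^ (m + 1)) := by
      rintro y ⟨hy, hxy⟩
      obtain ⟨m', hm', h⟩ := pair_prop hy hxy
      rw [← uniq_m hm hm'] at h
      rcases h with h | h
      · exact Or.inl h
      · refine Or.inr ⟨?_, ?_⟩
        · linarith [h.2]
        · linarith [h.1]
    refine (measure_mono hsub).trans ((measure_union_le _ _).trans ?_)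
    rw [Real.volume_Ico, Real.volume_Ioc]
    have e1 : (4 : ℝ) ^ (m + 1) + 1 - 4 ^ (m + 1) = 1 := by ring
    have e2 : x - 4 ^ (m + 1) - (x - ((4 : ℝ) ^ (m + 1) + 1)) = 1 := by ring
    rw [e1, e2, ENNReal.ofReal_one]
    norm_num

lemma EE_vol : volume EE = ∞ := by
  unfold EE
  rw [measure_iUnion]
  · have : ∀ j : ℕ, volume (Ico ((4 : ℝ) ^ (j + 1)) ((4 : ℝ) ^ (j + 1) + 1)) = 1 := by
      intro j
      rw [Real.volume_Ico]; simp
    simp_rw [this]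
    exact ENNReal.tsum_const_eq_top_of_ne_zero one_ne_zero
  · intro m m' hne
    rw [Function.onFun, Set.disjoint_left]
    intro x hx hx'
    apply hne
    have h3 : ∀ m : ℕ, (0 : ℝ) ≤ 4 ^ (m + 1) := fun m => by positivity
    exact uniq_m (x := x) ⟨hx.1, by linarith [hx.2, h3 m]⟩ ⟨hx'.1, by linarith [hx'.2, h3 m']⟩
  · exact fun _ => measurableSet_Ico

open Classical in
/-- the exponent `p` -/
def pp (x : ℝ) : ℝ≥0∞ := if x ∈ EE then 2 else ENNReal.ofReal (4 / 3)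

/-- the exponent `q` -/
def qq (_ : ℝ) : ℝ≥0∞ := 4

lemma pp_meas : Measurable pp :=
  Measurable.ite EE_meas measurable_const measurable_const

lemma pp_ne_top (x : ℝ) : pp x ≠ ∞ := by
  unfold pp; split_ifs <;> simp

lemma le_pp (x : ℝ) : ENNReal.ofReal (4 / 3) ≤ pp x := by
  unfold pp
  split_ifs
  · rw [show (2 : ℝ≥0∞) = ENNReal.ofReal 2 by simp]
    exact ENNReal.ofReal_le_ofReal (by norm_num)
  · exact le_rfl

lemma pminus_pp : pminus pp = ENNReal.ofReal (4 / 3) := by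
  refine le_antisymm ?_ (le_essInf_of_ae_le _ (Eventually.of_forall le_pp))
  by_contra hlt
  rw [not_le] at hlt
  have h := ae_lt_of_lt_essInf (μ := (volume : Measure ℝ)) hlt
  have h2 : volume (Iio (0 : ℝ)) = 0 := by
    refine measure_mono_null ?_ h
    intro x hx
    simp only [mem_compl_iff, mem_ofPred_eq, not_lt]
    have : x ∉ EE := by
      intro hx2
      obtain ⟨j, hj, -⟩ := mem_EE.1 hx2
      have : (0 : ℝ) < 4 ^ (j + 1) := by positivity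
      have hx' : x < 0 := hx
      linarith
    unfold pp
    rw [if_neg this]
  simp at h2

lemma modular_pp (g : ℝ → ℂ) : modular pp g = ∫⁻ x, ‖g x‖ₑ ^ (pp x).toReal := by
  unfold modular
  have h1 : {x | pp x ≠ ∞} = univ := eq_univ_of_forall pp_ne_top
  have h2 : {x | pp x = ∞} = ∅ := eq_empty_of_forall_notMem pp_ne_top
  rw [h1, h2]
  simp

lemma modular_qq (g : ℝ → ℂ) : modular qq g = ∫⁻ x, ‖g x‖ₑ ^ 4 := by
  unfold modular
  have h1 : {x | qq x ≠ ∞} = univ := eq_univ_of_forall fun _ => by simp [qq]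
  have h2 : {x | qq x = ∞} = ∅ := eq_empty_of_forall_notMem fun _ => by simp [qq]
  rw [h1, h2]
  simp [qq]

lemma four_pow (a b : ℝ≥0∞) : (a + b) ^ 4 ≤ 8 * (a ^ 4 + b ^ 4) := by
  have h := ENNReal.rpow_add_le_mul_rpow_add_rpow a b (p := 4) (by norm_num)
  simp only [ENNReal.rpow_ofNat] at h
  refine h.trans (le_of_eq ?_)
  have : (2 : ℝ≥0∞) ^ ((4 : ℝ) - 1) = 8 := by
    rw [show ((4 : ℝ) - 1) = ((3 : ℕ) : ℝ) by norm_num, ENNReal.rpow_natCast]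
    norm_num
  rw [this]

/-- the estimate for functions with modular at most one -/
lemma unit_bound (g : ℝ → ℂ) (hg : Integrable g) (h : modular pp g ≤ 1) :
    ∫⁻ ξ, ‖𝓕 g ξ‖ₑ ^ 4 ≤ 24 := by
  -- replace `g` by a measurable function
  obtain ⟨g', hgm, hgg⟩ := hg.1
  have hg' : Integrable g' := (integrable_congr hgg).1 hg
  have hF : 𝓕 g = 𝓕 g' := by
    funext ξ
    rw [Real.fourier_eq, Real.fourier_eq]
    refine integral_congr_ae ?_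
    filter_upwards [hgg] with x hx
    rw [hx]
  have hmod : ∫⁻ x, ‖g' x‖ₑ ^ (pp x).toReal ≤ 1 := by
    rw [modular_pp] at h
    refine le_trans (le_of_eq ?_) h
    refine lintegral_congr_ae ?_
    filter_upwards [hgg] with x hx
    rw [hx]
  rw [hF]
  have hgm' : Measurable g' := hgm.measurable
  set g1 : ℝ → ℂ := EE.indicator g' with hg1
  set g2 : ℝ → ℂ := EEᶜ.indicator g' with hg2
  have hsum : g' = g1 + g2 := (indicator_self_add_compl EE g').symm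
  have hi1 : Integrable g1 := hg'.indicator EE_meas
  have hi2 : Integrable g2 := hg'.indicator EE_meas.compl
  have hm1 : Measurable g1 := hgm'.indicator EE_meas
  have hm2 : Measurable g2 := hgm'.indicator EE_meas.compl
  -- bounds of the two modulars
  have b1 : ∫⁻ y, ‖g1 y‖ₑ ^ 2 ≤ 1 := by
    refine le_trans (lintegral_mono fun x => ?_) hmod
    by_cases hx : x ∈ EE
    · rw [hg1, indicator_of_mem hx]
      have : pp x = 2 := by unfold pp; rw [if_pos hx]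
      rw [this]; simp
    · rw [hg1, indicator_of_notMem hx]; simp
  have b2 : ∫⁻ y, ‖g2 y‖ₑ ^ (4 / 3 : ℝ) ≤ 1 := by
    refine le_trans (lintegral_mono fun x => ?_) hmod
    by_cases hx : x ∈ EE
    · have : x ∉ EEᶜ := fun h => h hx
      rw [hg2, indicator_of_notMem this]; simp
    · have hx' : x ∈ EEᶜ := hx
      rw [hg2, indicator_of_mem hx']
      have : pp x = ENNReal.ofReal (4 / 3) := by unfold pp; rw [if_neg hx]
      rw [this, ENNReal.toReal_ofReal (by norm_num)]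
  have c1 : ∫⁻ ξ, ‖𝓕 g1 ξ‖ₑ ^ 4 ≤ 2 := by
    refine F4 g1 hi1 (by norm_num) ?_
    refine (youngB EE EE_meas EE_sidon (fun y => ‖g1 y‖ₑ) hm1.enorm ?_).trans ?_
    · intro x hx
      rw [hg1, indicator_of_notMem hx]; simp
    · calc 2 * (∫⁻ y, ‖g1 y‖ₑ ^ 2) ^ 2 ≤ 2 * 1 ^ 2 := by gcongr
        _ = 2 := by norm_num
  have c2 : ∫⁻ ξ, ‖𝓕 g2 ξ‖ₑ ^ 4 ≤ 1 := by
    refine F4 g2 hi2 (by norm_num) ?_
    refine (youngA (fun y => ‖g2 y‖ₑ) hm2.enorm).trans ?_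
    calc (∫⁻ y, ‖g2 y‖ₑ ^ (4 / 3 : ℝ)) ^ 3 ≤ 1 ^ 3 := by gcongr
      _ = 1 := by norm_num
  have hadd : ∀ ξ, 𝓕 g' ξ = 𝓕 g1 ξ + 𝓕 g2 ξ := by
    intro ξ
    rw [hsum]
    have := congrFun (VectorFourier.fourierIntegral_add Real.continuous_fourierChar
      (L := innerₗ ℝ) (by exact continuous_inner) hi1 hi2) ξ
    exact this
  have hmeas : Measurable fun ξ => ‖𝓕 g1 ξ‖ₑ ^ 4 := by
    have hc : Continuous (𝓕 g1) := VectorFourier.fourierIntegral_continuous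
      (L := innerₗ ℝ) Real.continuous_fourierChar continuous_inner hi1
    exact (hc.measurable.enorm).pow_const 4
  calc ∫⁻ ξ, ‖𝓕 g' ξ‖ₑ ^ 4 ≤ ∫⁻ ξ, 8 * (‖𝓕 g1 ξ‖ₑ ^ 4 + ‖𝓕 g2 ξ‖ₑ ^ 4) := by
        refine lintegral_mono fun ξ => ?_
        rw [hadd]
        refine le_trans ?_ (four_pow _ _)
        exact pow_le_pow_left' (enorm_add_le _ _) 4
    _ = 8 * ((∫⁻ ξ, ‖𝓕 g1 ξ‖ₑ ^ 4) + ∫⁻ ξ, ‖𝓕 g2 ξ‖ₑ ^ 4) := by
        rw [lintegral_const_mul' _ _ (by norm_num), lintegral_add_left hmeas]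
    _ ≤ 8 * (2 + 1) := by gcongr
    _ = 24 := by norm_num

lemma fourier_div (f : ℝ → ℂ) (l : ℝ) : 𝓕 (fun x => f x / l) = fun ξ => 𝓕 f ξ / l := by
  funext ξ
  rw [Real.fourier_eq, Real.fourier_eq, div_eq_mul_inv, ← integral_mul_const]
  congr 1
  funext x
  simp only [Circle.smul_def, smul_eq_mul, div_eq_mul_inv]
  ring

lemma bounded : FourierBounded pp qq := by
  refine ⟨3, fun f hf _ => ?_⟩
  unfold vnorm
  rw [ENNReal.mul_iInf_of_ne (by norm_num) (by norm_num)]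
  refine le_iInf fun l => ?_
  rw [ENNReal.mul_iInf_of_ne (by norm_num) (by norm_num)]
  refine le_iInf fun hl => ?_
  rw [ENNReal.mul_iInf_of_ne (by norm_num) (by norm_num)]
  refine le_iInf fun hmod => ?_
  have h3 : (0 : ℝ) < 3 * l := by positivity
  have hb := unit_bound (fun x => f x / l) (hf.div_const _) hmod
  refine (iInf_le _ (3 * l)).trans ((iInf_le _ h3).trans ((iInf_le _ ?_).trans (le_of_eq ?_)))
  · rw [modular_qq]
    have e : ∀ x, ‖𝓕 f x / ((3 * l : ℝ) : ℂ)‖ₑ ^ 4 = (81 : ℝ≥0∞)⁻¹ * ‖𝓕 (fun x => f x / l) x‖ₑ ^ 4 := by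
      intro x
      rw [fourier_div]
      have e1 : 𝓕 f x / ((3 * l : ℝ) : ℂ) = (3 : ℂ)⁻¹ * (𝓕 f x / l) := by
        push_cast
        rw [div_mul_eq_div_div_swap, div_eq_mul_inv _ (3 : ℂ), mul_comm]
      rw [e1, enorm_mul, mul_pow]
      congr 1
      have e2 : ‖(3 : ℂ)⁻¹‖ₑ = (3 : ℝ≥0∞)⁻¹ := by
        rw [enorm_inv (by norm_num)]
        congr 1
        have : ‖(3 : ℂ)‖ₑ = ENNReal.ofReal ‖(3 : ℂ)‖ := (ofReal_norm _).symm
        rw [this]; norm_num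
      rw [e2, ← ENNReal.inv_pow]
      norm_num
    simp_rw [e]
    rw [lintegral_const_mul' _ _ (by norm_num)]
    calc (81 : ℝ≥0∞)⁻¹ * ∫⁻ x, ‖𝓕 (fun x => f x / l) x‖ₑ ^ 4 ≤ 81⁻¹ * 81 := by
          gcongr
          exact hb.trans (by norm_num)
      _ = 1 := ENNReal.inv_mul_cancel (by norm_num) (by norm_num)
  · rw [ENNReal.ofReal_mul (by norm_num)]
    simp

lemma defectR_EE {x : ℝ} (hx : x ∈ EE) : defectR pp x = 4 := by
  unfold defectR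
  have : pp x = 2 := by unfold pp; rw [if_pos hx]
  rw [pminus_pp, this, show (2 : ℝ≥0∞) = ENNReal.ofReal 2 by simp,
    ← ENNReal.ofReal_inv_of_pos (by norm_num), ← ENNReal.ofReal_inv_of_pos (by norm_num),
    ← ENNReal.ofReal_sub _ (by norm_num), ← ENNReal.ofReal_inv_of_pos (by norm_num)]
  norm_num

lemma not_mem : ¬ MemVar (defectR pp) (fun _ => 1) := by
  rintro ⟨-, l, hl, h⟩
  unfold modular at h
  have h1 : (∫⁻ x in {x | defectR pp x ≠ ∞}, ‖(1 : ℂ) / l‖ₑ ^ (defectR pp x).toReal) < ∞ :=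
    lt_of_le_of_lt le_self_add h
  have hsub : EE ⊆ {x | defectR pp x ≠ ∞} := by
    intro x hx
    simp only [mem_ofPred_eq]
    rw [defectR_EE hx]
    norm_num
  have h2 : (∫⁻ x in EE, ‖(1 : ℂ) / l‖ₑ ^ (defectR pp x).toReal) < ∞ :=
    lt_of_le_of_lt (lintegral_mono_set hsub) h1
  have h3 : (∫⁻ x in EE, ‖(1 : ℂ) / l‖ₑ ^ (defectR pp x).toReal) =
      ∫⁻ x in EE, ‖(1 : ℂ) / l‖ₑ ^ (4 : ℝ) := by
    refine setLIntegral_congr_fun EE_meas fun x hx => ?_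
    rw [defectR_EE hx]; simp
  rw [h3, setLIntegral_const, EE_vol] at h2
  have h4 : ‖(1 : ℂ) / l‖ₑ ^ (4 : ℝ) ≠ 0 := by
    have : (l : ℂ) ≠ 0 := by exact_mod_cast hl.ne'
    have h5 : ‖(1 : ℂ) / l‖ₑ ≠ 0 := enorm_ne_zero.2 (div_ne_zero one_ne_zero this)
    intro h6
    rw [ENNReal.rpow_eq_zero_iff] at h6
    rcases h6 with h6 | h6
    · exact h5 h6.1
    · linarith [h6.2]
  rw [ENNReal.mul_top h4] at h2
  exact lt_irrefl _ h2

/-- **Main theorem.** There are exponents `p, q` on `ℝ`, such that the Fourier transform is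
bounded from `L^{p(·)}(ℝ)` to `L^{q(·)}(ℝ)`, the defect exponents `r, s` are exponents, but the
constant function `1` is not in `L^{r(·)}(ℝ)`. -/
theorem result :
    ∃ p q : ℝ → ℝ≥0∞, IsExponent p ∧ IsExponent q ∧ FourierBounded p q ∧
      (∀ x, (p x)⁻¹ ≤ (pminus p)⁻¹) ∧ (∀ x, (conjExp (pminus p))⁻¹ ≤ (q x)⁻¹) ∧
      IsExponent (defectR p) ∧ IsExponent (defectS p q) ∧
      ¬ MemVar (defectR p) (fun _ => 1) := by
  have hconj : conjExp (pminus pp) = 4 := by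
    unfold conjExp
    rw [pminus_pp, show (1 : ℝ≥0∞) = ENNReal.ofReal 1 by simp,
      ← ENNReal.ofReal_inv_of_pos (by norm_num), ← ENNReal.ofReal_sub _ (by norm_num),
      ← ENNReal.ofReal_inv_of_pos (by norm_num)]
    norm_num
  have h1 : ∀ x, (pp x)⁻¹ ≤ (pminus pp)⁻¹ := fun x => by
    rw [pminus_pp]; exact ENNReal.inv_le_inv.2 (le_pp x)
  have h43 : (1 : ℝ≥0∞) ≤ ENNReal.ofReal (4 / 3) := by
    rw [ENNReal.one_le_ofReal]; norm_num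
  refine ⟨pp, qq, ⟨pp_meas, fun x => h43.trans (le_pp x)⟩,
    ⟨measurable_const, fun x => by unfold qq; norm_num⟩, bounded, h1, ?_, ?_, ?_, not_mem⟩
  · intro x
    rw [hconj]; exact le_rfl
  · refine ⟨(measurable_const.sub pp_meas.inv).inv, fun x => ?_⟩
    unfold defectR
    rw [ENNReal.one_le_inv]
    refine tsub_le_self.trans ?_
    rw [pminus_pp]
    exact ENNReal.inv_le_one.2 h43
  · have hq : Measurable qq := measurable_const
    refine ⟨(hq.inv.sub measurable_const).inv, fun x => ?_⟩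
    unfold defectS qq
    rw [hconj]
    simp

end

end Pool.Agent.Results.MP_598c7e_an.SidonUnion
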